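import Pool.Agent.H19.QCube.Quantum3
import Pool.Agent.H19.QCube.Classical2
import Pool.Agent.H19.QCube.Unique

/-!
# Disproof of `[S³_low V(λ)] = [S_q³ V(λ)]` and `[Λ³_low V(λ)] = [Λ_q³ V(λ)]`

For `g = sl₃` and `V = V(1, 1)` the adjoint module, the trivial module occurs in `S_q³V` and in
`Λ_q³V` for every real `q > 0`, `q ≠ 1` (transcendental or not), but neither in `S³_low V` nor
in `Λ³_low V`.
-/

set_option autoImplicit false

namespace Pool.Agent.Results.MP_a0e63f_al.AdjointSl3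

open Pool.Agent.H19.QCube

/-- Let `q > 0`, `q ≠ 1` be real.  There are a simple `U_q(sl₃)`-module `V` of highest weight
`(1, 1)` and a simple `sl₃(ℂ)`-module `W` of highest weight `(1, 1)`, in bases of weight vectors
with the same weights, such that `V ⊗ V` has exactly one braiding `R` and, for it,
`[S_q³V] ≠ [S³_low W]` and `[Λ_q³V] ≠ [Λ³_low W]`; indeed the trivial module (weight `0`) occurs
in `S_q³V` and in `Λ_q³V`, but not in `S³_low W` and `Λ³_low W`. -/
theorem result (q : ℝ) (hq : 0 < q) (hq1 : q ≠ 1) :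
    ∃ (V : QModule q (Fin 8)) (W : CModule (Fin 8)),
      V.IsSimpleHW ![1, 1] ∧ W.IsSimpleHW ![1, 1] ∧ V.wt = W.wt ∧
      (∃! R, V.IsBraiding ![1, 1] R) ∧
      ∀ R, V.IsBraiding ![1, 1] R →
        W.symCubeLow ≠ V.cls (cube (symSq R)) ∧ W.extCubeLow ≠ V.cls (cube (extSq R)) ∧
        W.symCubeLow 0 = 0 ∧ 1 ≤ V.cls (cube (symSq R)) 0 ∧
        W.extCubeLow 0 = 0 ∧ 1 ≤ V.cls (cube (extSq R)) 0 := by
  refine ⟨adj q hq hq1, cadj, adj_simple hq hq1, cadj_simple, rfl,
    ⟨mR q, adj_braiding hq hq1, fun R hR => braiding_unique hq hq1 R hR⟩, ?_⟩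
  intro R hR
  rw [braiding_unique hq hq1 R hR]
  have h1 := symCube_pos hq hq1
  have h2 := extCube_pos hq hq1
  refine ⟨fun h => ?_, fun h => ?_, symCubeLow_zero, h1, extCubeLow_zero, h2⟩
  · rw [← h, symCubeLow_zero] at h1
    exact absurd h1 (lt_irrefl 0)
  · rw [← h, extCubeLow_zero] at h2
    exact absurd h2 (lt_irrefl 0)

end Pool.Agent.Results.MP_a0e63f_al.AdjointSl3
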